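import Pool.Agent.Q195.CR.Low3
import Pool.Agent.TH270.MS.GrowthF

/-!
# The rate in the original conjecture of Birch and Swinnerton-Dyer

`E : y² = x³ + a x + b` is an elliptic curve over `ℚ`, `a, b ∈ ℤ`, `N_p` is the number of points modulo
`p` (with the point at infinity), `a_p = p + 1 - N_p` and `P(x) = ∏_{p ≤ x, p ∤ 2Δ} N_p / p`.  `F` is the entire
continuation of the incomplete `L`-series and `f` is the newform of `E`.
`P*(x) = P(x) exp (∑_{√x < p ≤ x} (a_p² - 2p)/(2p²))` is the product over all prime powers `≤ x`, up to a factor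
`1 + O(x^{-1/12})`; by Rankin and Selberg `P*(x) ∼ P(x)/√2`.  Put

`D(x) = log (√2 P*(x) / (C (log x)^ρ))`.

The starting files show that `∫_e^∞ D(x)² dx/x < ∞` is equivalent to: `F` has no zeros with `Re s > 1`,
`ρ = m = ord_{s=1} F` and `C = √2 e^{mγ} m! / F^{(m)}(1)`.  Here the exact size of `D` in mean is determined.  The
following are equivalent, for all real `ρ` and `C > 0`:

* (1) `F` has no zeros with `Re s > 1`, `ρ = m = ord_{s=1} F`, `C = √2 e^{mγ} m! / F^{(m)}(1)`;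
* (2) `∫_X^{eX} (log x · D(x))² dx/x = O(1)`: in mean square over every window `[X, eX]` the error is
  `O(1 / log x)`;
* (3) `∫_e^X |D(x)| dx/x = O(log log X)`;
* (4) `∫_e^∞ (log x)^{1-ε} D(x)² dx/x < ∞` for all `ε > 0`.

If moreover `F` has a zero `1 + iγ`, `γ ≠ 0`, then (3) and (4) are sharp: `∫_e^X |D(x)| dx/x ≥ c log log X` for all
large `X`, with some `c > 0`, and `∫_e^∞ log x · D(x)² dx/x = ∞`.

Proof.  Let `S(u)` and `S₁(u)` be the sums of the coefficients `c(n)` and of `c(n) λ(n)`, `λ(n) ≤ u`, of the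
Dirichlet series `-log F(1 + s)`.  With a constant `q` the Laplace transform of `S₁(u) - r u - q` is regular at `0`
and has near every other point of the imaginary axis few simple poles with residues `O(1/|t|)`; a kernel with
compactly supported Fourier transform and the theorem of Paley and Wiener give
`∫_T^{T+1} (S₁(u) - r u - q)² du = O(1)`, a form of Cramér's theorem.  Partial summation, and the square
integrability of the deviation (starting files, `Pool.Agent.TH270.MS`), give (2).  For the lower bound the Laplace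
transform of the deviation is compared with the logarithmic singularity at the zero.
-/

set_option autoImplicit false

namespace Pool.Agent.Results.MP_3283e1_nt.CramerRate

open Filter Topology Classical MeasureTheory Set CongruenceSubgroup UpperHalfPlane
open scoped MatrixGroups

/-- `N_p`: the number of points of `y² = x³ + a x + b` modulo `p`, with the point at infinity. -/
noncomputable def numPoints (a b : ℤ) (p : ℕ) : ℕ :=
  Nat.card {q : ZMod p × ZMod p // q.2 ^ 2 = q.1 ^ 3 + (a : ZMod p) * q.1 + (b : ZMod p)} + 1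

/-- `p` is a prime that does not divide `2 Δ`, where `Δ = -4 a³ - 27 b²`. -/
def Good (a b : ℤ) (p : ℕ) : Prop :=
  p.Prime ∧ ¬ ((p : ℤ) ∣ 2 * (-4 * a ^ 3 - 27 * b ^ 2))

/-- The original Birch and Swinnerton-Dyer product `P(x) = ∏_{p ≤ x, p ∤ 2Δ} N_p / p`. -/
noncomputable def P (a b : ℤ) (x : ℝ) : ℝ :=
  ∏ p ∈ (Finset.range (⌊x⌋₊ + 1)).filter (Good a b), ((numPoints a b p : ℝ) / p)

/-- `P*(x) = P(x) exp (∑ (a_p² - 2p)/(2p²))`, the sum over the primes `√x < p ≤ x`, `p ∤ 2Δ`,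
`a_p = p + 1 - N_p`. -/
noncomputable def Pstar (a b : ℤ) (x : ℝ) : ℝ :=
  P a b x * Real.exp (∑ p ∈ (Finset.range (⌊x⌋₊ + 1)).filter (fun p => Good a b p ∧ √x < p),
    (((p : ℝ) + 1 - numPoints a b p) ^ 2 - 2 * p) / (2 * (p : ℝ) ^ 2))

/-- `D(x) = log (√2 P*(x) / (C (log x)^ρ))` -/
noncomputable def D (a b : ℤ) (ρ C x : ℝ) : ℝ :=
  Real.log (√2 * Pstar a b x / (C * Real.log x ^ ρ))

/-- `F` is an entire function which for `Re s > 3/2` is the incomplete `L`-series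
`∏_{p ∤ 2Δ} (1 - a_p p^{-s} + p^{1-2s})⁻¹`, `a_p = p + 1 - N_p`, of `y² = x³ + a x + b`. -/
def IsLSeries (a b : ℤ) (F : ℂ → ℂ) : Prop :=
  Differentiable ℂ F ∧ ∀ s : ℂ, (3 : ℝ) / 2 < s.re →
    HasProd (fun p : ℕ => if Good a b p then
      (1 - ((p : ℂ) + 1 - (numPoints a b p : ℂ)) * (p : ℂ) ^ (-s) + (p : ℂ) ^ (1 - 2 * s))⁻¹ else 1)
      (F s)

/-- The `n`-th Fourier coefficient of `f`. -/
noncomputable def coef {N : ℕ} (f : CuspForm (Gamma0 N : Subgroup (GL (Fin 2) ℝ)) 2) (n : ℕ) : ℂ :=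
  (qExpansion 1 f).coeff n

/-- `f ∈ S_2(Γ₀(N))` is the newform of the elliptic curve `E : y² = x³ + a x + b` of conductor `N`: the
Fourier coefficients `c(n)` of `f` are real with `c(1) = 1`, they satisfy the Hecke relations
`c(mn) = c(m) c(n)` for coprime `m`, `n` and `c(p^(j+2)) = c(p) c(p^(j+1)) - p c(p^j)` (without the last
term if `p ∣ N`), `c(p) = a_p = p + 1 - N_p` for all primes `p ∤ 2Δ`, `|c(p)| ≤ 2 √p` for all
`p ∤ N` (Hasse) and `c(p) = 0, 1, -1` for `p ∣ N`. -/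
structure IsNewformOf (a b : ℤ) (N : ℕ) (f : CuspForm (Gamma0 N : Subgroup (GL (Fin 2) ℝ)) 2) :
    Prop where
  one : coef f 1 = 1
  real : ∀ n, (coef f n).im = 0
  mul : ∀ m n : ℕ, Nat.Coprime m n → coef f (m * n) = coef f m * coef f n
  pow : ∀ p j : ℕ, p.Prime → coef f (p ^ (j + 2)) = coef f p * coef f (p ^ (j + 1)) -
      (if p ∣ N then 0 else (p : ℂ) * coef f (p ^ j))
  points : ∀ p : ℕ, Good a b p → coef f p = (p : ℂ) + 1 - (numPoints a b p : ℂ)
  good : ∀ p : ℕ, p.Prime → ¬ p ∣ N → ‖coef f p‖ ≤ 2 * Real.sqrt p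
  bad : ∀ p : ℕ, p.Prime → p ∣ N → coef f p = 0 ∨ coef f p = 1 ∨ coef f p = -1

/-- (1): `F` has no zeros with `Re s > 1`, `ρ = m = ord_{s=1} F` and `C = √2 e^{mγ} m! / F^{(m)}(1)`. -/
def Target (F : ℂ → ℂ) (ρ C : ℝ) : Prop :=
  (∀ s : ℂ, 1 < s.re → F s ≠ 0) ∧ ∃ m : ℕ, ρ = m ∧ analyticOrderAt F 1 = m ∧
    iteratedDeriv m F 1 / (m.factorial : ℂ) =
      ((√2 * Real.exp (m * Real.eulerMascheroniConstant) / C : ℝ) : ℂ)

/-! ### Translation to the definitions of the imported files -/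

variable {a b : ℤ}

theorem P_eq (x : ℝ) : P a b x = Pool.Agent.W263.BSD.bsdProduct a b x := by
  unfold P Pool.Agent.W263.BSD.bsdProduct numPoints Pool.Agent.W263.BSD.pointCount
  refine Finset.prod_congr rfl fun p _ => ?_
  push_cast
  rfl

theorem Pstar_eq (x : ℝ) : Pstar a b x = Pool.Agent.W263.BSD.bsdStar a b x := by
  unfold Pstar Pool.Agent.W263.BSD.bsdStar
  rw [P_eq]
  congr 2
  refine Finset.sum_congr rfl fun p _ => ?_
  have h : (p : ℝ) + 1 - (numPoints a b p : ℝ) =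
      (p : ℝ) - (Pool.Agent.W263.BSD.pointCount a b p : ℝ) := by
    unfold numPoints Pool.Agent.W263.BSD.pointCount
    push_cast
    ring
  rw [h]

theorem D_eq (ρ C : ℝ) : D a b ρ C = Pool.Agent.TH270.MS.EQ.devStar a b ρ C := by
  funext x
  unfold D Pool.Agent.TH270.MS.EQ.devStar
  rw [Pstar_eq]

theorem numPoints_sub (p : ℕ) : (p : ℂ) + 1 - (numPoints a b p : ℂ) =
    (p : ℂ) - (Pool.Agent.W263.BSD.pointCount a b p : ℂ) := by
  unfold numPoints Pool.Agent.W263.BSD.pointCount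
  push_cast
  ring

theorem isLSeries {F : ℂ → ℂ} (hF : IsLSeries a b F) :
    Pool.Agent.W263.BSD.IsLSeries a b F := by
  refine ⟨hF.1, fun s hs => ?_⟩
  have h := hF.2 s hs
  simp only [numPoints_sub] at h
  exact h

theorem hecke {N : ℕ} {f : CuspForm (Gamma0 N : Subgroup (GL (Fin 2) ℝ)) 2}
    (hf : IsNewformOf a b N f) : Pool.Agent.TH941.Hecke f where
  one := hf.one
  real := hf.real
  mul := hf.mul
  pow := hf.pow
  good := hf.good
  bad := fun p hp h => by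
    rcases hf.bad p hp h with h1 | h1 | h1
    · have h2 : ‖coef f p‖ ≤ 1 := by rw [h1]; simp
      exact h2
    · have h2 : ‖coef f p‖ ≤ 1 := by rw [h1]; simp
      exact h2
    · have h2 : ‖coef f p‖ ≤ 1 := by rw [h1]; simp
      exact h2

/-- **The rate in the original conjecture of Birch and Swinnerton-Dyer.** -/
theorem result (a b : ℤ) (hΔ : 4 * a ^ 3 + 27 * b ^ 2 ≠ 0) (F : ℂ → ℂ) (hF : IsLSeries a b F)
    (N : ℕ) [NeZero N] (f : CuspForm (Gamma0 N : Subgroup (GL (Fin 2) ℝ)) 2)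
    (hf : IsNewformOf a b N f) (ρ C : ℝ) (hC : 0 < C) :
    List.TFAE [
      Target F ρ C,
      ∃ M : ℝ, ∀ X : ℝ, Real.exp 1 ≤ X →
        ∫ x in X..Real.exp 1 * X, (Real.log x * D a b ρ C x) ^ 2 / x ≤ M,
      ∃ M : ℝ, ∀ X : ℝ, Real.exp 1 ≤ X →
        ∫ x in Real.exp 1..X, |D a b ρ C x| / x ≤ M * (1 + Real.log (Real.log X)),
      ∀ ε : ℝ, 0 < ε → IntegrableOn
        (fun x : ℝ => Real.log x ^ (1 - ε) * D a b ρ C x ^ 2 / x) (Ioi (Real.exp 1))] ∧
    (Target F ρ C → (∃ γ : ℝ, γ ≠ 0 ∧ F (1 + γ * Complex.I) = 0) →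
      (∃ c : ℝ, 0 < c ∧ ∀ᶠ X : ℝ in atTop, c * Real.log (Real.log X) ≤
        ∫ x in Real.exp 1..X, |D a b ρ C x| / x) ∧
      ¬ IntegrableOn (fun x : ℝ => Real.log x * D a b ρ C x ^ 2 / x) (Ioi (Real.exp 1))) := by
  have hF' := isLSeries hF
  have hpts : ∀ p : ℕ, Good a b p → coef f p = (p : ℂ) - (Pool.Agent.W263.BSD.pointCount a b p : ℂ) :=
    fun p hp => (hf.points p hp).trans (numPoints_sub p)
  have hrs := (hecke hf).rsSum_tendsto hΔ hpts
  obtain ⟨C₀, κ, hg⟩ := Pool.Agent.TH270.MS.EQ.growth_F hΔ hF' (hecke hf) hpts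
  have hη : (0 : ℝ) < 1 / 8 := by norm_num
  rw [D_eq]
  refine ⟨Pool.Agent.Q195.CR.curve_rate hΔ hF' hrs hη hg ρ hC, ?_⟩
  rintro h1 ⟨γ, hγ, hz⟩
  have hsq : IntegrableOn (fun x : ℝ => Pool.Agent.TH270.MS.EQ.devStar a b ρ C x ^ 2 / x)
      (Ioi (Real.exp 1)) :=
    ((Pool.Agent.TH270.MS.EQ.curve_law hΔ hF' hrs hη hg ρ hC).out 0 3).1 h1
  obtain ⟨c, hc, h2⟩ := Pool.Agent.Q195.CR.curve_low hF' hη hg ρ hC hsq hγ hz
  exact ⟨⟨c, hc, h2⟩,
    Pool.Agent.Q195.CR.not_int (Pool.Agent.TH270.MS.EQ.bm_devStar a b hC) hc h2⟩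

end Pool.Agent.Results.MP_3283e1_nt.CramerRate
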