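import Pool.Agent.Q284.K.Curve
import Pool.Agent.TH270.MS.GrowthF
import Pool.Agent.TH941.Newform

/-!
# Every finite-range form of the Birch and Swinnerton-Dyer products, whatever the weights

Let `C : y² = x³ + a x + b` be an elliptic curve over `ℚ`, `a, b ∈ ℤ`, let `N_p` be the number of
affine points modulo the good primes `p ∤ 2Δ`, and let `F` be the entire continuation of the incomplete
`L`-series. For a weight `w` on `[0, ∞)` with `w(u) = 0` for `u > β` put

`S_w(X) = ∑_{p ≤ X^β, p ∤ 2Δ} w(log p / log X) log ((N_p + 1)/p)`.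

For `w = 1_{[0,1]}` this is the logarithm of the original product of Birch and Swinnerton-Dyer, and
Goldfeld (1982) proved that the original asymptotic formula implies the Riemann hypothesis for `F`.
Does the rank form have an equivalent in terms of the `N_p`, `p ≤ X^β`, for a better choice of the
weights? (With infinitely many primes there are such equivalents, see `AnalyticRankLaw`.) The
answer is no, unless the Riemann hypothesis is proved at the same time:

* if `F` has a zero `s` with `Re s > 1` then for EVERY bounded measurable weight of range exactly `β`,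
  positive or not, `S_w(X)` is larger than `C X^α`, for arbitrarily large `X`, for all `α < β (Re s - 1)`;
* for every real `ρ` the following are equivalent: `F` has no zeros with `Re s > 1` (by the functional
  equation: the Riemann hypothesis) and `ord_{s=1} F = ρ`; `S_w(X) ∼ ρ log log X` for ONE bounded
  measurable weight of finite range, normalized at `0`; `S_w(X) - ρ log log X` converges for ALL Lipschitz
  weights of finite range with `w(0) = 1`; `ρ ≤ ord_{s=1} F` and `S_w(X) ≤ (ρ + ε) log log X` for one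
  nonnegative weight. The limit is
  `m ∫_0^∞ (w(u) - 1_{u ≤ 1}) du/u + log (√2 e^{mγ} m! / |F^{(m)}(1)|)`, `m = ord_{s=1} F`.

With `ρ` the rank: the finite-range forms of the conjecture of Birch and Swinnerton-Dyer, with the
rank, are all equivalent to each other, and to the rank form together with the Riemann hypothesis for `F`.

The proof. The Laplace transform of `S_w(e^T)` is `∫ w(1/t) (F'/F)(1 + st) dt` up to a regular term; it
jumps across the ray through a zero, the jump being `w`. For the asymptotic formula: partial summation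
from the law in the mean (module `Pool.Agent.TH270.MS`). The jump is from `Pool.Agent.TH942.LS` (helper942).
-/

set_option autoImplicit false

namespace Pool.Agent.Results.MP_3283e1_nt.FiniteRangeLaws

open Pool.Agent.W263.BSD Filter Topology Classical MeasureTheory Set
open CongruenceSubgroup UpperHalfPlane
open scoped MatrixGroups

/-- The rank of the group of rational points of `y² = x³ + a x + b`. -/
noncomputable def rank (a b : ℤ) : ℕ :=
  Module.finrank ℤ
    (WeierstrassCurve.Affine.Point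
      (WeierstrassCurve.toAffine
        ({ a₁ := 0, a₂ := 0, a₃ := 0, a₄ := (a : ℚ), a₆ := (b : ℚ) } : WeierstrassCurve ℚ)))

/-- `S_w(X)`, the sum over the good primes `p ≤ X^β` of `w(log p / log X) log ((N_p + 1)/p)`. -/
noncomputable def S (a b : ℤ) (w : ℝ → ℝ) (β X : ℝ) : ℝ :=
  ∑ p ∈ (Finset.range (⌊X ^ β⌋₊ + 1)).filter (GoodPrime a b),
    w (Real.log p / Real.log X) * Real.log (((pointCount a b p : ℝ) + 1) / p)

/-- Bounded measurable weights of range exactly `β`: `w(u) = 0` for `u > β`, but `w` is not `0` almost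
everywhere on `(κ, β)` for any `κ < β`. -/
structure FiniteRange (w : ℝ → ℝ) (β : ℝ) : Prop where
  meas : Measurable w
  bounded : ∃ W : ℝ, ∀ u, |w u| ≤ W
  pos : 0 < β
  zero : ∀ u, β < u → w u = 0
  ess : ∀ κ < β, ¬ ∀ᵐ u, u ∈ Ioo κ β → w u = 0

/-- The weight is normalized: `w(u) → 1` as `u → 0`, in the sense that `∫_0^β |w(u) - 1| du/u < ∞`. -/
def Normalized (w : ℝ → ℝ) (β : ℝ) : Prop := IntegrableOn (fun u : ℝ => |w u - 1| / u) (Ioo 0 β)

/-- Lipschitz weights with `w(0) = 1` and `w(u) = 0` for `u > β`. -/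
structure LipWeight (w : ℝ → ℝ) (β : ℝ) : Prop where
  lip : ∃ K, LipschitzWith K w
  one : w 0 = 1
  pos : 0 < β
  zero : ∀ u, β < u → w u = 0

/-- `∫_0^∞ (w(u) - 1_{u ≤ 1}) du/u` -/
noncomputable def J (w : ℝ → ℝ) : ℝ := ∫ u in Ioi (0 : ℝ), (w u - if u ≤ 1 then 1 else 0) / u

/-- `√2 e^{mγ} m! / |F^{(m)}(1)|` -/
noncomputable def T (F : ℂ → ℂ) (m : ℕ) : ℝ :=
  √2 * Real.exp (m * Real.eulerMascheroniConstant) * (m.factorial : ℝ) / ‖iteratedDeriv m F 1‖

/-- `F` has no zeros with `Re s > 1`. -/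
def NoZeros (F : ℂ → ℂ) : Prop := ∀ s : ℂ, 1 < s.re → F s ≠ 0

/-- The `n`-th Fourier coefficient of `f`. -/
noncomputable def coef {N : ℕ} (f : CuspForm (Gamma0 N : Subgroup (GL (Fin 2) ℝ)) 2) (n : ℕ) : ℂ :=
  (qExpansion 1 f).coeff n

/-- `f ∈ S_2(Γ₀(N))` is the newform of the elliptic curve `E : y² = x³ + a x + b` of conductor `N`: the
Fourier coefficients `c(n)` of `f` are real with `c(1) = 1`, they satisfy the Hecke relations
`c(mn) = c(m) c(n)` for coprime `m`, `n` and `c(p^(j+2)) = c(p) c(p^(j+1)) - p c(p^j)` (without the last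
term if `p ∣ N`), `c(p) = a_p = p - N_p` (`N_p` affine points) for all primes `p ∤ 2Δ`, `|c(p)| ≤ 2 √p` for
all `p ∤ N` (Hasse) and `c(p) = 0, 1, -1` for `p ∣ N`. -/
structure IsNewformOf (a b : ℤ) (N : ℕ) (f : CuspForm (Gamma0 N : Subgroup (GL (Fin 2) ℝ)) 2) :
    Prop where
  one : coef f 1 = 1
  real : ∀ n, (coef f n).im = 0
  mul : ∀ m n : ℕ, Nat.Coprime m n → coef f (m * n) = coef f m * coef f n
  pow : ∀ p j : ℕ, p.Prime → coef f (p ^ (j + 2)) = coef f p * coef f (p ^ (j + 1)) -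
      (if p ∣ N then 0 else (p : ℂ) * coef f (p ^ j))
  points : ∀ p : ℕ, GoodPrime a b p → coef f p = (p : ℂ) - (pointCount a b p : ℂ)
  good : ∀ p : ℕ, p.Prime → ¬ p ∣ N → ‖coef f p‖ ≤ 2 * Real.sqrt p
  bad : ∀ p : ℕ, p.Prime → p ∣ N → coef f p = 0 ∨ coef f p = 1 ∨ coef f p = -1

theorem hecke {a b : ℤ} {N : ℕ} {f : CuspForm (Gamma0 N : Subgroup (GL (Fin 2) ℝ)) 2}
    (hf : IsNewformOf a b N f) : Pool.Agent.TH941.Hecke f where
  one := hf.one
  real := hf.real
  mul := hf.mul
  pow := hf.pow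
  good := hf.good
  bad := fun p hp h => by
    rcases hf.bad p hp h with h1 | h1 | h1
    · have h2 : ‖coef f p‖ ≤ 1 := by rw [h1]; simp
      exact h2
    · have h2 : ‖coef f p‖ ≤ 1 := by rw [h1]; simp
      exact h2
    · have h2 : ‖coef f p‖ ≤ 1 := by rw [h1]; simp
      exact h2

/-- `S_w(X) ∼ ρ log log X` for one normalized weight of finite range -/
def OneWeight (a b : ℤ) (ρ : ℝ) : Prop := ∃ (w : ℝ → ℝ) (β : ℝ), FiniteRange w β ∧
  Normalized w β ∧ Tendsto (fun X : ℝ => S a b w β X / Real.log (Real.log X)) atTop (𝓝 ρ)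

/-- `S_w(X) - ρ log log X` converges for all Lipschitz weights of finite range -/
def AllWeights (a b : ℤ) (ρ : ℝ) : Prop := ∀ (w : ℝ → ℝ) (β : ℝ), LipWeight w β →
  ∃ κ : ℝ, Tendsto (fun X : ℝ => S a b w β X - ρ * Real.log (Real.log X)) atTop (𝓝 κ)

/-- `S_w(X) ≤ (ρ + ε) log log X` for one nonnegative normalized weight of finite range, every `ε > 0` and
all large `X` -/
def Upper (a b : ℤ) (ρ : ℝ) : Prop := ∃ (w : ℝ → ℝ) (β : ℝ), FiniteRange w β ∧ Normalized w β ∧
  (∀ u, 0 ≤ w u) ∧ ∀ ε : ℝ, 0 < ε → ∀ᶠ X : ℝ in atTop, S a b w β X ≤ (ρ + ε) * Real.log (Real.log X)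

theorem range_iff {w : ℝ → ℝ} {β : ℝ} : FiniteRange w β ↔ Pool.Agent.Q284.K.FiniteRange w β :=
  ⟨fun h => ⟨h.meas, h.bounded, h.pos, h.zero, h.ess⟩,
    fun h => ⟨h.meas, h.bounded, h.pos, h.zero, h.ess⟩⟩

/-- **Every finite-range form of the Birch and Swinnerton-Dyer products.** -/
theorem result (a b : ℤ) (hΔ : 4 * a ^ 3 + 27 * b ^ 2 ≠ 0) (F : ℂ → ℂ) (hF : IsLSeries a b F) :
    ∃ m : ℕ, analyticOrderAt F 1 = m ∧
      -- zeros make all the sums large
      (∀ (w : ℝ → ℝ) (β : ℝ), FiniteRange w β → ∀ s : ℂ, 1 < s.re → F s = 0 →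
        ∀ α C : ℝ, α < β * (s.re - 1) → ∃ᶠ X : ℝ in atTop, C * X ^ α < |S a b w β X|) ∧
      -- one weight, or a one-sided bound for one nonnegative weight, give the Riemann hypothesis
      -- and the order
      (∀ ρ : ℝ, (OneWeight a b ρ → NoZeros F ∧ ρ = m) ∧ (Upper a b ρ → NoZeros F ∧ (m : ℝ) ≤ ρ)) ∧
      -- the equivalence
      ∀ (N : ℕ) [NeZero N] (f : CuspForm (Gamma0 N : Subgroup (GL (Fin 2) ℝ)) 2),
        IsNewformOf a b N f →
        (NoZeros F → ∀ (w : ℝ → ℝ) (β : ℝ), LipWeight w β →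
          Tendsto (fun X : ℝ => S a b w β X - m * Real.log (Real.log X)) atTop
            (𝓝 (m * J w + Real.log (T F m)))) ∧
        (∀ ρ : ℝ, List.TFAE [NoZeros F ∧ ρ = m, OneWeight a b ρ, AllWeights a b ρ,
          ρ ≤ m ∧ Upper a b ρ]) ∧
        List.TFAE [NoZeros F ∧ analyticOrderAt F 1 = (rank a b : ℕ∞), OneWeight a b (rank a b),
          AllWeights a b (rank a b), (rank a b : ℕ∞) ≤ analyticOrderAt F 1 ∧
            Upper a b (rank a b)] := by
  obtain ⟨m, hm⟩ := Pool.Agent.W189.ML.order_finite_all hF 1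
  have hone : ∀ ρ : ℝ, OneWeight a b ρ → NoZeros F ∧ ρ = m := by
    rintro ρ ⟨w, β, h1, h2, h3⟩
    exact Pool.Agent.Q284.K.of_law hF hm (range_iff.1 h1) h2 h3
  have hup : ∀ ρ : ℝ, Upper a b ρ → NoZeros F ∧ (m : ℝ) ≤ ρ := by
    rintro ρ ⟨w, β, h1, h2, h3, h4⟩
    exact Pool.Agent.Q284.K.of_upper hF hm (range_iff.1 h1) h3 h2 h4
  refine ⟨m, hm, fun w β hw s hs h0 α C hα =>
    Pool.Agent.Q284.K.omega hF (range_iff.1 hw) hs h0 C hα, fun ρ => ⟨hone ρ, hup ρ⟩, ?_⟩
  intro N _ f hf
  have hrs : Tendsto (rsSum a b) atTop (𝓝 0) :=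
    (hecke hf).rsSum_tendsto hΔ fun p hp => hf.points p hp
  obtain ⟨C₀, κ, hg⟩ := Pool.Agent.TH270.MS.EQ.growth_F hΔ hF (hecke hf) fun p hp => hf.points p hp
  have hlaw : NoZeros F → ∀ (w : ℝ → ℝ) (β : ℝ), LipWeight w β →
      Tendsto (fun X : ℝ => S a b w β X - m * Real.log (Real.log X)) atTop
        (𝓝 (m * J w + Real.log (T F m))) := by
    intro hne w β hw
    obtain ⟨K, hK⟩ := hw.lip
    exact Pool.Agent.Q284.K.law_curve hΔ hF hrs (by norm_num : (0 : ℝ) < 1 / 8) hg hm hne hK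
      hw.one hw.pos hw.zero
  have tentW : LipWeight Pool.Agent.Q284.K.tent 1 := ⟨⟨1, Pool.Agent.Q284.K.tent_lip⟩,
    Pool.Agent.Q284.K.tent_zero, one_pos, Pool.Agent.Q284.K.tent_supp⟩
  have key : ∀ ρ : ℝ, List.TFAE [NoZeros F ∧ ρ = m, OneWeight a b ρ, AllWeights a b ρ,
      ρ ≤ m ∧ Upper a b ρ] := by
    intro ρ
    tfae_have 1 → 3 := by
      rintro ⟨h1, rfl⟩ w β hw
      exact ⟨_, hlaw h1 w β hw⟩
    tfae_have 3 → 2 := by
      intro h
      obtain ⟨κ', hκ⟩ := h _ _ tentW
      exact ⟨_, _, range_iff.2 Pool.Agent.Q284.K.tent_range, Pool.Agent.Q284.K.tent_norm,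
        Pool.Agent.Q284.K.div_loglog hκ⟩
    tfae_have 2 → 1 := hone ρ
    tfae_have 1 → 4 := by
      rintro ⟨h1, rfl⟩
      refine ⟨le_rfl, _, _, range_iff.2 Pool.Agent.Q284.K.tent_range,
        Pool.Agent.Q284.K.tent_norm, Pool.Agent.Q284.K.tent_nonneg, fun ε hε => ?_⟩
      have h2 := Pool.Agent.Q284.K.div_loglog (hlaw h1 _ _ tentW)
      have hl : Tendsto (fun X : ℝ => Real.log (Real.log X)) atTop atTop :=
        Real.tendsto_log_atTop.comp Real.tendsto_log_atTop
      filter_upwards [(Metric.tendsto_nhds.1 h2) ε hε, hl.eventually (eventually_gt_atTop 0)]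
        with X h3 h4
      rw [Real.dist_eq] at h3
      have h5 := (abs_lt.1 h3).2
      have h6 : S a b Pool.Agent.Q284.K.tent 1 X / Real.log (Real.log X) < m + ε := by linarith
      rw [div_lt_iff₀ h4] at h6
      exact h6.le
    tfae_have 4 → 1 := by
      rintro ⟨h1, h2⟩
      obtain ⟨h3, h4⟩ := hup ρ h2
      exact ⟨h3, le_antisymm h1 h4⟩
    tfae_finish
  refine ⟨hlaw, key, ?_⟩
  have h1 : (NoZeros F ∧ analyticOrderAt F 1 = (rank a b : ℕ∞)) ↔
      (NoZeros F ∧ ((rank a b : ℕ) : ℝ) = m) := by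
    refine and_congr_right fun _ => ?_
    rw [hm]
    constructor
    · intro h
      have h2 : m = rank a b := by exact_mod_cast h
      rw [h2]
    · intro h
      have h2 : rank a b = m := by exact_mod_cast h
      rw [h2]
  have h2 : ((rank a b : ℕ∞) ≤ analyticOrderAt F 1 ∧ Upper a b (rank a b)) ↔
      (((rank a b : ℕ) : ℝ) ≤ m ∧ Upper a b (rank a b)) := by
    refine and_congr_left fun _ => ?_
    rw [hm]
    constructor
    · intro h
      have h2 : rank a b ≤ m := by exact_mod_cast h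
      exact_mod_cast h2
    · intro h
      have h2 : rank a b ≤ m := by exact_mod_cast h
      exact_mod_cast h2
  rw [h1, h2]
  exact key (rank a b)

end Pool.Agent.Results.MP_3283e1_nt.FiniteRangeLaws
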