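import Pool.Agent.Q255.IR.Fin3
import Pool.Agent.Q255.IR.RS
import Pool.Agent.Q190.IR.Dpi
import Pool.Agent.Q190.IR.Tilt
import Pool.Agent.Q190.IR.SB
import Pool.Agent.Q208.IR.Nolim
import Pool.Agent.Q299.IR.Blocks
import Pool.Agent.Q299.IR.Pat
import Pool.Agent.Q299.IR.Clock
import Pool.Agent.Q150.IR.Tree
import Pool.Agent.Q124.IR.Has
import Pool.Agent.Q124.IR.Steer
import Pool.Agent.Q124.IR.Free
import Pool.Agent.Q26.IC.Iid

/-!
# The price of the rank in the Birch and Swinnerton-Dyer product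

`E : y² = x³ + a x + b` is an elliptic curve over `ℚ`, `a, b ∈ ℤ`, `N_p` the number of points modulo `p`
(with the point at infinity), `a_p = p + 1 - N_p`, and `f` is the newform of `E`.  For a choice `ω` of
signs `ω(p)` at the primes put

`P_ω(x) = ∏_{p ≤ x, p ∤ 2Δ} (p + 1 - ω(p) a_p) / p`.

The factor is `#E(𝔽_p)/p` if `ω(p) = 1`, and the same number for the quadratic twist of `E` over `𝔽_p` if
`ω(p) = -1`; the product of the problem is `P_1(x)`.  The signs may have any joint law whatsoever; `I(x)` is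
the relative entropy (Kullback-Leibler divergence) of the law of the signs `ω(p)`, `p ≤ x`, to
independent fair signs.  It is known that for independent fair signs `P_ω(x)` has the typical size
`(log x)^{1/2}`.  Here the amount of information that is needed for the power `(log x)^ρ`, `ρ` the rank in the
problem, and for the exact asymptotic `P_ω(x) ∼ A (log x)^ρ` of the problem is determined.

1. If `I(x) ≤ (c + o(1)) log log x` then `P_ω(x)` is outside `(log x)^{1/2 ± κ}` with probability at most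
   `2c/κ² + o(1)`.
2. This is sharp: for `ρ ≠ 1/2` and `0 ≤ c ≤ (ρ - 1/2)²/2` some law with `I(x) ≤ c log log x + O(1)` has
   `P_ω(x) = (log x)^{ρ + o(1)}` with probability exactly `2c/(ρ - 1/2)²`.  So the growth of the rank `r` costs
   `(r - 1/2)²/2` nats per unit of `log log x`.
3. The asymptotic of the problem has no such price: if `I(x) ≤ K log log x` for arbitrarily large `x`, then
   almost surely `P_ω(x)/(log x)^ρ` has a positive limit for no real `ρ`.
4. Any larger amount of information is enough: for all `ψ(x) → ∞`, `ρ` and `A > 0` some law with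
   `I(x) ≤ ψ(x) log log x` for large `x` has `P_ω(x) ∼ A (log x)^ρ` almost surely.
-/

set_option autoImplicit false

namespace Pool.Agent.Results.MP_3283e1_nt.InformationCostOfTheRank

open Filter Topology MeasureTheory CongruenceSubgroup UpperHalfPlane
open scoped MatrixGroups

/-- `N_p`: the number of points of `y² = x³ + a x + b` modulo `p`, with the point at infinity. -/
noncomputable def numPoints (a b : ℤ) (p : ℕ) : ℕ :=
  Nat.card {q : ZMod p × ZMod p // q.2 ^ 2 = q.1 ^ 3 + (a : ZMod p) * q.1 + (b : ZMod p)} + 1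

/-- `p` is a prime that does not divide `2 Δ`, where `Δ = -4 a³ - 27 b²`. -/
def Good (a b : ℤ) (p : ℕ) : Prop :=
  p.Prime ∧ ¬ ((p : ℤ) ∣ 2 * (-4 * a ^ 3 - 27 * b ^ 2))

/-- the `k`-th prime, `prime 0 = 2` -/
noncomputable def prime (k : ℕ) : ℕ := Nat.nth Nat.Prime k

/-- the sign at the `k`-th prime -/
def sign (ω : ℕ → Bool) (k : ℕ) : ℝ := if ω k then 1 else -1

open Classical in
/-- The twisted Birch and Swinnerton-Dyer product `∏ (p + 1 - ω(p) a_p) / p`, `a_p = p + 1 - N_p`, over the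
primes `p ≤ x`, `p ∤ 2Δ` (the primes `p ≤ x` are the `prime k` with `k < π(x)`). -/
noncomputable def P (a b : ℤ) (ω : ℕ → Bool) (x : ℕ) : ℝ :=
  ∏ k ∈ Finset.range (Nat.primeCounting x), if Good a b (prime k) then
    ((prime k : ℝ) + 1 - sign ω k * ((prime k : ℝ) + 1 - numPoints a b (prime k))) / prime k else 1

/-- `I(x)`: the relative entropy `∑_s q(s) log (2^n q(s))` of the law `q` of the signs at the `n = π(x)` primes
`p ≤ x` to independent fair signs, in nats. -/
noncomputable def information (ν : Measure (ℕ → Bool)) (x : ℕ) : ℝ :=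
  ∑ s : Fin (Nat.primeCounting x) → Bool, ν.real {ω | ∀ k : Fin (Nat.primeCounting x), ω k = s k} *
    Real.log (2 ^ Nat.primeCounting x *
      ν.real {ω | ∀ k : Fin (Nat.primeCounting x), ω k = s k})

/-- The `n`-th Fourier coefficient of `f`. -/
noncomputable def coef {N : ℕ} (f : CuspForm (Gamma0 N : Subgroup (GL (Fin 2) ℝ)) 2) (n : ℕ) : ℂ :=
  (qExpansion 1 f).coeff n

/-- `f ∈ S_2(Γ₀(N))` is the newform of the elliptic curve `E : y² = x³ + a x + b` of conductor `N`: the
Fourier coefficients `c(n)` of `f` are real with `c(1) = 1`, they satisfy the Hecke relations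
`c(mn) = c(m) c(n)` for coprime `m`, `n` and `c(p^(j+2)) = c(p) c(p^(j+1)) - p c(p^j)` (without the last
term if `p ∣ N`), `c(p) = a_p = p + 1 - N_p` for all primes `p ∤ 2Δ`, `|c(p)| ≤ 2 √p` for all
`p ∤ N` (Hasse) and `c(p) = 0, 1, -1` for `p ∣ N`. -/
structure IsNewformOf (a b : ℤ) (N : ℕ) (f : CuspForm (Gamma0 N : Subgroup (GL (Fin 2) ℝ)) 2) :
    Prop where
  one : coef f 1 = 1
  real : ∀ n, (coef f n).im = 0
  mul : ∀ m n : ℕ, Nat.Coprime m n → coef f (m * n) = coef f m * coef f n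
  pow : ∀ p j : ℕ, p.Prime → coef f (p ^ (j + 2)) = coef f p * coef f (p ^ (j + 1)) -
      (if p ∣ N then 0 else (p : ℂ) * coef f (p ^ j))
  points : ∀ p : ℕ, Good a b p → coef f p = (p : ℂ) + 1 - (numPoints a b p : ℂ)
  good : ∀ p : ℕ, p.Prime → ¬ p ∣ N → ‖coef f p‖ ≤ 2 * Real.sqrt p
  bad : ∀ p : ℕ, p.Prime → p ∣ N → coef f p = 0 ∨ coef f p = 1 ∨ coef f p = -1

/-! ### Translation to the definitions of the imported files -/

variable {a b : ℤ}

theorem good_iff (p : ℕ) : Good a b p ↔ Pool.Agent.Q255.IR.Good a b p := by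
  unfold Good Pool.Agent.Q255.IR.Good
  have h : 2 * (-4 * a ^ 3 - 27 * b ^ 2) = -(2 * (4 * a ^ 3 + 27 * b ^ 2)) := by ring
  rw [h, dvd_neg]

theorem P_eq (ω : ℕ → Bool) (x : ℕ) : P a b ω x = Pool.Agent.Q255.IR.P a b ω x := by
  unfold P Pool.Agent.Q255.IR.P
  refine Finset.prod_congr rfl fun k _ => ?_
  by_cases h : Good a b (prime k)
  · have h' : Pool.Agent.Q255.IR.Good a b (Pool.Agent.Q255.IC.pr k) := (good_iff _).1 h
    rw [if_pos h, if_pos h']
    rfl
  · have h' : ¬ Pool.Agent.Q255.IR.Good a b (Pool.Agent.Q255.IC.pr k) :=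
      fun h2 => h ((good_iff _).2 h2)
    rw [if_neg h, if_neg h']

/-- the words of length `n` have total probability one -/
theorem sum_words (ν : Measure (ℕ → Bool)) [IsProbabilityMeasure ν] (n : ℕ) :
    ∑ s : Fin n → Bool, ν.real {ω | ∀ k : Fin n, ω k = s k} = 1 := by
  have hm : Measurable fun ω : ℕ → Bool => fun k : Fin n => ω k :=
    measurable_pi_lambda _ fun k => measurable_pi_apply _
  have hset : ∀ s : Fin n → Bool, {ω : ℕ → Bool | ∀ k : Fin n, ω k = s k} =
      (fun ω : ℕ → Bool => fun k : Fin n => ω k) ⁻¹' {s} := by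
    intro s
    ext ω
    simp only [Set.mem_setOf_eq, Set.mem_preimage, Set.mem_singleton_iff]
    exact ⟨fun h => funext h, fun h k => congrFun h k⟩
  have h1 : ∑ s : Fin n → Bool, ν.real {ω | ∀ k : Fin n, ω k = s k} =
      ν.real (⋃ s ∈ (Finset.univ : Finset (Fin n → Bool)), {ω | ∀ k : Fin n, ω k = s k}) := by
    rw [measureReal_biUnion_finset]
    · intro s _ t _ hst
      rw [Function.onFun, Set.disjoint_left]
      intro ω h1 h2
      exact hst (funext fun k => (h1 k).symm.trans (h2 k))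
    · intro s _
      rw [hset]
      exact hm (measurableSet_singleton s)
  rw [h1]
  have h2 : (⋃ s ∈ (Finset.univ : Finset (Fin n → Bool)), {ω : ℕ → Bool | ∀ k : Fin n, ω k = s k}) =
      Set.univ := by
    ext ω
    simp only [Finset.mem_univ, Set.iUnion_true, Set.mem_iUnion, Set.mem_setOf_eq, Set.mem_univ,
      iff_true]
    exact ⟨fun k => ω k, fun k => rfl⟩
  rw [h2]
  simp

theorem information_eq (ν : Measure (ℕ → Bool)) [IsProbabilityMeasure ν] (x : ℕ) :
    information ν x = Pool.Agent.Q255.IR.D ν (Nat.primeCounting x) := by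
  unfold information Pool.Agent.Q255.IR.D Pool.Agent.Q255.IC.entropy
  set n := Nat.primeCounting x
  have h1 : ∀ s : Fin n → Bool, ν.real {ω | ∀ k : Fin n, ω k = s k} *
      Real.log (2 ^ n * ν.real {ω | ∀ k : Fin n, ω k = s k}) =
      ν.real {ω | ∀ k : Fin n, ω k = s k} * (n * Real.log 2) -
        Real.negMulLog (ν.real {ω | ∀ k : Fin n, ω k = s k}) := by
    intro s
    set q := ν.real {ω | ∀ k : Fin n, ω k = s k}
    unfold Real.negMulLog
    rcases eq_or_ne q 0 with hq | hq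
    · rw [hq]
      simp
    · rw [Real.log_mul (by positivity) hq, Real.log_pow]
      ring
  rw [Finset.sum_congr rfl fun s _ => h1 s, Finset.sum_sub_distrib, ← Finset.sum_mul, sum_words,
    one_mul]

theorem hecke {N : ℕ} {f : CuspForm (Gamma0 N : Subgroup (GL (Fin 2) ℝ)) 2}
    (hf : IsNewformOf a b N f) : Pool.Agent.TH941.Hecke f where
  one := hf.one
  real := hf.real
  mul := hf.mul
  pow := hf.pow
  good := hf.good
  bad := fun p hp h => by
    rcases hf.bad p hp h with h1 | h1 | h1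
    · have h2 : ‖coef f p‖ ≤ 1 := by rw [h1]; simp
      exact h2
    · have h2 : ‖coef f p‖ ≤ 1 := by rw [h1]; simp
      exact h2
    · have h2 : ‖coef f p‖ ≤ 1 := by rw [h1]; simp
      exact h2

theorem rankinSelberg {N : ℕ} [NeZero N] {f : CuspForm (Gamma0 N : Subgroup (GL (Fin 2) ℝ)) 2}
    (hf : IsNewformOf a b N f) (hΔ : 4 * a ^ 3 + 27 * b ^ 2 ≠ 0) :
    Pool.Agent.Q255.IR.RankinSelberg a b := by
  refine Pool.Agent.Q255.IR.rankinSelberg (hecke hf) hΔ fun p hp => ?_
  have h1 := hf.points p ((good_iff p).2 hp)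
  have h2 : Pool.Agent.W165.RS.ac f p = coef f p := rfl
  rw [h2, h1]
  unfold Pool.Agent.Q255.IR.aP
  push_cast
  rfl

theorem concl {N : ℕ} [NeZero N] {f : CuspForm (Gamma0 N : Subgroup (GL (Fin 2) ℝ)) 2}
    (hf : IsNewformOf a b N f) (hΔ : 4 * a ^ 3 + 27 * b ^ 2 ≠ 0) : Pool.Agent.Q255.IR.Concl a b := by
  have hDPI : Pool.Agent.Q255.IR.S_DPI := Pool.Agent.Q190.IR.t_DPI
  have hONE : Pool.Agent.Q255.IR.S_ONE := Pool.Agent.Q190.IR.t_ONE hDPI Pool.Agent.Q190.IR.t_LDV
  have hSB : Pool.Agent.Q255.IR.S_SB := Pool.Agent.Q190.IR.SB.sb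
  have hTILT : Pool.Agent.Q255.IR.S_TILT := Pool.Agent.Q190.IR.Tilt.tilt
  have hBL : Pool.Agent.Q255.IR.S_BLOCKS := Pool.Agent.Q299.IR.blocks hSB
  exact Pool.Agent.Q255.IR.concl hΔ (rankinSelberg hf hΔ) hDPI hONE hTILT Pool.Agent.Q26.IC.mix
    (Pool.Agent.Q208.IR.nolim hBL hDPI)
    (Pool.Agent.Q124.IR.t_FREE Pool.Agent.Q299.IR.pat Pool.Agent.Q150.IR.tree Pool.Agent.Q299.IR.clock
      Pool.Agent.Q124.IR.t_STEER)
    (Pool.Agent.Q124.IR.t_PR1 Pool.Agent.Q124.IR.t_HAS) (Pool.Agent.Q24.IR.t_PR2 Pool.Agent.Q124.IR.t_HAS)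

/-- **The price of the rank.**  For the elliptic curve `E : y² = x³ + a x + b` with newform `f` and signs
`ω` with an arbitrary joint law `ν`: (1) information `(c + o(1)) log log x` allows a deviation of
`log P_ω(x)` from `(log log x)/2` by `κ log log x` with probability at most `2c/κ² + o(1)`; (2) this is sharp;
(3) with information `O(log log x)` along a sequence of `x` almost surely no `P_ω(x)/(log x)^ρ` has a
positive limit; (4) with any larger information every asymptotic `P_ω(x) ∼ A (log x)^ρ` is possible almost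
surely. -/
theorem result (a b : ℤ) (hΔ : 4 * a ^ 3 + 27 * b ^ 2 ≠ 0) (N : ℕ) [NeZero N]
    (f : CuspForm (Gamma0 N : Subgroup (GL (Fin 2) ℝ)) 2) (hf : IsNewformOf a b N f) :
    (∀ (ν : Measure (ℕ → Bool)) [IsProbabilityMeasure ν] (κ c : ℝ), 0 < κ → 0 ≤ c →
      (∀ ε : ℝ, 0 < ε → ∀ᶠ x : ℕ in atTop, information ν x ≤ (c + ε) * Real.log (Real.log x)) →
      ∀ ε : ℝ, 0 < ε → ∀ᶠ x : ℕ in atTop,
        ν.real {ω | κ * Real.log (Real.log x) ≤
          |Real.log (P a b ω x) - Real.log (Real.log x) / 2|} ≤ 2 * c / κ ^ 2 + ε) ∧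
    (∀ ρ c : ℝ, ρ ≠ 1 / 2 → 0 ≤ c → c ≤ (ρ - 1 / 2) ^ 2 / 2 →
      ∃ ν : Measure (ℕ → Bool), IsProbabilityMeasure ν ∧
        (∃ C : ℝ, ∀ x : ℕ, information ν x ≤ c * Real.log (Real.log x) + C) ∧
        ν {ω | Tendsto (fun x : ℕ => Real.log (P a b ω x) / Real.log (Real.log x)) atTop (𝓝 ρ)} =
          ENNReal.ofReal (2 * c / (ρ - 1 / 2) ^ 2)) ∧
    (∀ (ν : Measure (ℕ → Bool)) [IsProbabilityMeasure ν] (K : ℝ),
      (∃ᶠ x : ℕ in atTop, information ν x ≤ K * Real.log (Real.log x)) →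
        ν {ω | ∃ ρ A : ℝ, 0 < A ∧
          Tendsto (fun x : ℕ => P a b ω x / Real.log x ^ ρ) atTop (𝓝 A)} = 0) ∧
    (∀ (ψ : ℕ → ℝ) (ρ A : ℝ), Tendsto ψ atTop atTop → 0 < A →
      ∃ ν : Measure (ℕ → Bool), IsProbabilityMeasure ν ∧
        (∀ᶠ x : ℕ in atTop, information ν x ≤ ψ x * Real.log (Real.log x)) ∧
        ∀ᵐ ω ∂ν, Tendsto (fun x : ℕ => P a b ω x / Real.log x ^ ρ) atTop (𝓝 A)) := by
  have h := concl hf hΔ
  refine ⟨?_, ?_, ?_, ?_⟩
  · intro ν _ κ c hκ hc hD ε hε
    simp only [P_eq]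
    refine h.one ν κ c hκ hc (fun δ hδ => ?_) ε hε
    filter_upwards [hD δ hδ] with x hx
    rw [information_eq] at hx
    exact hx
  · intro ρ c hρ hc hc2
    obtain ⟨ν, hp, ⟨C, hC⟩, h2⟩ := h.two ρ c hρ hc hc2
    refine ⟨ν, hp, ⟨C, fun x => ?_⟩, ?_⟩
    · rw [information_eq]
      exact hC x
    · simp only [P_eq]
      exact h2
  · intro ν _ K hK
    simp only [P_eq]
    refine h.three ν K (hK.mono fun x hx => ?_)
    rw [information_eq] at hx
    exact hx
  · intro ψ ρ A hψ hA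
    obtain ⟨ν, hp, h1, h2⟩ := h.four ψ ρ A hψ hA
    refine ⟨ν, hp, ?_, ?_⟩
    · filter_upwards [h1] with x hx
      rw [information_eq]
      exact hx
    · simp only [P_eq]
      exact h2

end Pool.Agent.Results.MP_3283e1_nt.InformationCostOfTheRank
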